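import Pool.Agent.N158.PC.Stm

/-!
From the relation `Reach` to the stopping time of the Collatz map on polynomials over the field
with two elements.
-/

namespace Pool.Agent.N879.PC

open Polynomial Pool.Agent.N158.PC

theorem x_eq : x = (((X : (ZMod 2)[X]) : A)) := by
  unfold x
  exact (Polynomial.coe_X).symm

theorem one_eq : (1 : A) = (((1 : (ZMod 2)[X]) : A)) := (Polynomial.coe_one).symm

theorem inj {f g : (ZMod 2)[X]} (h : (f : A) = (g : A)) : f = g := Polynomial.coe_inj.1 h

theorem X_mul_divX {f : (ZMod 2)[X]} (h : f.coeff 0 = 0) : X * f.divX = f := by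
  have h1 := divX_mul_X_add f
  rw [h, C_0, add_zero] at h1
  rw [mul_comm]
  exact h1

theorem T_zero {f : (ZMod 2)[X]} (h : f.coeff 0 = 0) : T f = f.divX := by
  unfold T
  rw [if_neg]
  rw [h]
  exact zero_ne_one

theorem T_one {f : (ZMod 2)[X]} (h : f.coeff 0 = 1) : T f = (X + 1) * f + 1 := by
  unfold T
  rw [if_pos h]

theorem coeff_zero_mul (f : (ZMod 2)[X]) : (X * f).coeff 0 = 0 := by
  rw [mul_comm]
  exact coeff_mul_X_zero f

theorem divX_X_mul (f : (ZMod 2)[X]) : (X * f).divX = f := by
  have h1 := X_mul_divX (coeff_zero_mul f)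
  exact mul_left_cancel₀ X_ne_zero h1

theorem ne_one_of_coeff {f : (ZMod 2)[X]} (h : f.coeff 0 = 0) : f ≠ 1 := by
  rintro rfl
  rw [coeff_one_zero] at h
  exact one_ne_zero h

theorem zmod_cases (c : ZMod 2) : c = 0 ∨ c = 1 := by
  revert c
  decide

theorem key {F G : A} {N a : ℕ} (h : Reach F N a G) : ∀ f : (ZMod 2)[X], F = (f : A) → f ≠ 0 →
    ∃ g : (ZMod 2)[X], (g : A) = G ∧ T^[N + a] f = g ∧
      (G ≠ 1 → ∀ k ≤ N + a, T^[k] f ≠ 1) := by
  induction h with
  | refl F =>
    intro f hf hf0
    refine ⟨f, hf.symm, rfl, ?_⟩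
    intro hG k hk
    have hk0 : k = 0 := by omega
    subst hk0
    rintro h1
    apply hG
    rw [hf, one_eq]
    congr 1
  | @zero F' G N a _ ih =>
    intro f hf hf0
    have hc : f.coeff 0 = 0 := by
      have h1 : PowerSeries.coeff 0 (x * F') = PowerSeries.coeff 0 (f : A) := by rw [hf]
      rw [Polynomial.coeff_coe] at h1
      rw [← h1]
      unfold x
      simp
    have hd : X * f.divX = f := X_mul_divX hc
    have hF' : F' = (f.divX : A) := by
      have h1 : x * F' = x * (f.divX : A) := by
        rw [hf, x_eq, ← Polynomial.coe_mul, hd]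
      exact mul_left_cancel₀ x_ne h1
    have hd0 : f.divX ≠ 0 := by
      intro h1
      rw [h1, mul_zero] at hd
      exact hf0 hd.symm
    obtain ⟨g, hg, hT, hk⟩ := ih f.divX hF' hd0
    have hN : N + 1 + a = (N + a) + 1 := by omega
    refine ⟨g, hg, ?_, ?_⟩
    · rw [hN, Function.iterate_succ_apply, T_zero hc]
      exact hT
    · intro hG k hkN
      rcases k with _ | k
      · exact ne_one_of_coeff hc
      · rw [Function.iterate_succ_apply, T_zero hc]
        exact hk hG k (by omega)
  | @one F F' G N a e _ ih =>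
    intro f hf hf0
    have he : (((X + 1) * f + 1 : (ZMod 2)[X]) : A) = x * F' := by
      rw [← e, hf]
      unfold y
      rw [x_eq, Polynomial.coe_add, Polynomial.coe_mul, Polynomial.coe_add, Polynomial.coe_one]
      ring
    have hq0 : ((X + 1) * f + 1 : (ZMod 2)[X]).coeff 0 = 0 := by
      have h1 : PowerSeries.coeff 0 ((((X + 1) * f + 1 : (ZMod 2)[X]) : A)) =
          PowerSeries.coeff 0 (x * F') := by rw [he]
      rw [Polynomial.coeff_coe] at h1
      rw [h1]
      unfold x
      simp
    have hc : f.coeff 0 = 1 := by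
      have h1 : ((X + 1) * f + 1 : (ZMod 2)[X]).coeff 0 = f.coeff 0 + 1 := by
        rw [coeff_add, coeff_one_zero, add_mul, coeff_add, coeff_zero_mul, one_mul, zero_add]
      rw [h1] at hq0
      rcases zmod_cases (f.coeff 0) with h2 | h2
      · rw [h2] at hq0
        simp at hq0
      · exact h2
    have hd : X * ((X + 1) * f + 1 : (ZMod 2)[X]).divX = (X + 1) * f + 1 := X_mul_divX hq0
    set f' := ((X + 1) * f + 1 : (ZMod 2)[X]).divX with hf'
    have hF' : F' = (f' : A) := by
      have h1 : x * F' = x * (f' : A) := by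
        rw [← he, x_eq, ← Polynomial.coe_mul, hd]
      exact mul_left_cancel₀ x_ne h1
    have hd0 : f' ≠ 0 := by
      intro h1
      rw [h1, mul_zero] at hd
      have h2 : (X + 1 : (ZMod 2)[X]) * (-f) = 1 := by
        linear_combination hd
      have h3 : IsUnit (X + 1 : (ZMod 2)[X]) := IsUnit.of_mul_eq_one _ h2
      have h4 := natDegree_eq_zero_of_isUnit h3
      have h5 : (X + 1 : (ZMod 2)[X]).natDegree = 1 := by
        have := natDegree_X_add_C (1 : ZMod 2)
        rwa [C_1] at this
      omega
    have hTf : T f = X * f' := by rw [T_one hc, hd]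
    have hTTf : T (T f) = f' := by
      rw [hTf, T_zero (coeff_zero_mul f'), divX_X_mul]
    obtain ⟨g, hg, hT, hk⟩ := ih f' hF' hd0
    have hN : N + 1 + (a + 1) = (N + a) + 1 + 1 := by omega
    refine ⟨g, hg, ?_, ?_⟩
    · rw [hN, Function.iterate_succ_apply, Function.iterate_succ_apply, hTTf]
      exact hT
    · intro hG k hkN
      rcases k with _ | _ | k
      · intro h1
        have h1' : f = 1 := h1
        apply hk hG 0 (Nat.zero_le _)
        change f' = 1
        have h2 : X * f' = X * 1 := by
          rw [hd, h1']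
          have h3 : (1 + 1 : (ZMod 2)[X]) = 0 := by
            have h4 : (1 + 1 : ZMod 2) = 0 := by decide
            rw [← C_1, ← C_add, h4, C_0]
          linear_combination h3
        exact mul_left_cancel₀ X_ne_zero h2
      · rw [zero_add, Function.iterate_one, hTf]
        exact ne_one_of_coeff (coeff_zero_mul f')
      · rw [Function.iterate_succ_apply, Function.iterate_succ_apply, hTTf]
        exact hk hG k (by omega)

theorem x_ne_one : x ≠ 1 := by
  intro h
  have h1 : PowerSeries.coeff 0 x = PowerSeries.coeff 0 (1 : A) := by rw [h]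
  unfold x at h1
  simp at h1

theorem t_BRIDGE : Pool.Agent.N158.PC.T_BRIDGE := by
  intro f N a hf h
  obtain ⟨g, hg, hT, hk⟩ := key h f rfl hf
  have hgX : g = X := by
    apply inj
    rw [hg, x_eq]
  subst hgX
  have h1 : T^[N + a + 1] f = 1 := by
    rw [Function.iterate_succ_apply', hT, T_zero coeff_X_zero]
    have := divX_X_mul (1 : (ZMod 2)[X])
    rwa [mul_one] at this
  have h2 := hk x_ne_one
  unfold stop
  apply le_antisymm
  · exact Nat.sInf_le h1
  · by_contra hcon
    have h3 : sInf {k : ℕ | T^[k] f = 1} ≤ N + a := by omega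
    exact h2 _ h3 (Nat.sInf_mem (s := {k : ℕ | T^[k] f = 1}) ⟨_, h1⟩)

end Pool.Agent.N879.PC
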